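import Mathlib
import Pool.Agent.Helper12_WBX.Stmts

/-!
# NEA: the points near a point (squad WBX)
-/

set_option autoImplicit false

namespace Pool.Agent.WBX.H69

open Pool.Agent.WBX

theorem coord_cons (b : List (ℕ × ℕ)) (v a w : ℕ) :
    coord ((v, a) :: b) w = if w = v then a else coord b w := by
  unfold coord
  rw [List.lookup_cons]
  by_cases h : w = v
  · subst h
    simp
  · rw [if_neg h]
    have : (w == v) = false := by simpa using h
    rw [this]

theorem mem_nearby_succ {V : List ℕ} {L B : ℕ} {b c : List (ℕ × ℕ)} :
    c ∈ nearby V L (B + 1) b ↔ ∃ d ∈ nearby V L B b, c = d ∨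
      ∃ v ∈ V, ∃ a, a ≤ L ∧ c = (v, a) :: d := by
  rw [nearby, List.mem_flatMap]
  constructor
  · rintro ⟨d, hd, hc⟩
    refine ⟨d, hd, ?_⟩
    rw [List.mem_cons, List.mem_flatMap] at hc
    rcases hc with hc | ⟨v, hv, hc⟩
    · exact Or.inl hc
    · rw [List.mem_map] at hc
      obtain ⟨a, ha, rfl⟩ := hc
      rw [List.mem_range] at ha
      exact Or.inr ⟨v, hv, a, by omega, rfl⟩
  · rintro ⟨d, hd, hc⟩
    refine ⟨d, hd, ?_⟩
    rw [List.mem_cons, List.mem_flatMap]
    rcases hc with hc | ⟨v, hv, a, ha, rfl⟩
    · exact Or.inl hc
    · refine Or.inr ⟨v, hv, ?_⟩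
      rw [List.mem_map]
      exact ⟨a, List.mem_range.2 (by omega), rfl⟩

theorem length_nearby (V : List ℕ) (L B : ℕ) (b : List (ℕ × ℕ)) :
    (nearby V L B b).length = (1 + V.length * (L + 1)) ^ B := by
  induction B with
  | zero => simp [nearby]
  | succ B ih =>
    rw [nearby, List.length_flatMap]
    have h : ∀ c : List (ℕ × ℕ), (c :: V.flatMap fun v =>
        (List.range (L + 1)).map fun a => (v, a) :: c).length = 1 + V.length * (L + 1) := by
      intro c
      rw [List.length_cons, List.length_flatMap]
      simp only [List.length_map, List.length_range, List.map_const', List.sum_replicate,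
        smul_eq_mul]
      omega
    simp only [h]
    rw [List.map_const', List.sum_replicate, ih, smul_eq_mul, pow_succ]

theorem nea : NeaStmt := by
  intro V L B b
  refine ⟨length_nearby V L B b, ?_, ?_, ?_⟩
  · induction B with
    | zero =>
      intro c hc
      rw [nearby, List.mem_singleton] at hc
      rw [hc, add_zero]
    | succ B ih =>
      intro c hc
      rw [mem_nearby_succ] at hc
      obtain ⟨d, hd, hc⟩ := hc
      have h1 := ih d hd
      rcases hc with rfl | ⟨v, -, a, -, rfl⟩
      · omega
      · rw [List.length_cons]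
        omega
  · intro hb
    induction B with
    | zero =>
      intro c hc
      rw [nearby, List.mem_singleton] at hc
      rw [hc]
      exact hb
    | succ B ih =>
      intro c hc w
      rw [mem_nearby_succ] at hc
      obtain ⟨d, hd, hc⟩ := hc
      have h1 := ih d hd
      rcases hc with rfl | ⟨v, -, a, ha, rfl⟩
      · exact h1 w
      · rw [coord_cons]
        split_ifs
        · exact ha
        · exact h1 w
  · induction B with
    | zero =>
      intro S c hS _ _ hc
      have hS' : S = ∅ := Finset.card_eq_zero.1 (Nat.le_zero.1 hS)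
      refine ⟨b, ?_, ?_⟩
      · rw [nearby, List.mem_singleton]
      · funext v
        rw [hc v (by rw [hS']; exact Finset.notMem_empty v)]
    | succ B ih =>
      intro S c hS hV hL hc
      rcases S.eq_empty_or_nonempty with hS' | ⟨v, hv⟩
      · obtain ⟨c', h1, h2⟩ := ih S c (by rw [hS']; simp) hV hL hc
        exact ⟨c', mem_nearby_succ.2 ⟨c', h1, Or.inl rfl⟩, h2⟩
      · have hcard : (S.erase v).card ≤ B := by
          rw [Finset.card_erase_of_mem hv]
          omega
        obtain ⟨c', h1, h2⟩ := ih (S.erase v) (fun w => if w = v then coord b v else c w) hcard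
          (fun w hw => hV w (Finset.mem_of_mem_erase hw))
          (fun w hw => by
            rw [if_neg (Finset.ne_of_mem_erase hw)]
            exact hL w (Finset.mem_of_mem_erase hw))
          (fun w hw => by
            by_cases h : w = v
            · rw [if_pos h, h]
            · rw [if_neg h]
              exact hc w fun h' => hw (Finset.mem_erase.2 ⟨h, h'⟩))
        refine ⟨(v, c v) :: c', mem_nearby_succ.2 ⟨c', h1, Or.inr ⟨v, hV v hv, c v, hL v hv, rfl⟩⟩,
          ?_⟩
        funext w
        rw [coord_cons, h2]
        by_cases h : w = v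
        · rw [if_pos h, h]
        · rw [if_neg h]
          simp only [if_neg h]

end Pool.Agent.WBX.H69
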